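import Pool.Agent.helper36.PP.SpecM

/-! # Project pp (MP_70a088_an), module LC1 -/

set_option autoImplicit false

open Complex Metric Set Filter Topology MeasureTheory MPS MQ Pool.Agent.helper98.ILF

noncomputable section

namespace PPS

theorem LC1_factor (f : Polynomial ℂ) (q : ℂ) (hf : 1 ≤ f.natDegree) :
    ∃ (e : ℕ) (u : Polynomial ℂ), u.eval q ≠ 0 ∧
      (∀ z, f.eval z - f.eval q = (z - q) ^ (e + 1) * u.eval z) ∧
      (∀ z, fd f z = (z - q) ^ e * (((e : ℂ) + 1) * u.eval z + (z - q) * u.derivative.eval z)) := by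
  set P : Polynomial ℂ := f - Polynomial.C (f.eval q) with hP
  have hP0 : P ≠ 0 := by
    intro h
    have h1 : f = Polynomial.C (f.eval q) := sub_eq_zero.1 h
    rw [h1, Polynomial.natDegree_C] at hf
    omega
  obtain ⟨u, hu, hu2⟩ := Polynomial.exists_eq_pow_rootMultiplicity_mul_and_not_dvd P hP0 q
  have hroot : P.IsRoot q := by
    rw [Polynomial.IsRoot.def, hP, Polynomial.eval_sub, Polynomial.eval_C, sub_self]
  have hpos : 0 < P.rootMultiplicity q := (Polynomial.rootMultiplicity_pos hP0).2 hroot
  obtain ⟨e, he⟩ : ∃ e, P.rootMultiplicity q = e + 1 := ⟨P.rootMultiplicity q - 1, by omega⟩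
  rw [he] at hu
  refine ⟨e, u, ?_, ?_, ?_⟩
  · intro h
    exact hu2 (Polynomial.dvd_iff_isRoot.2 h)
  · intro z
    have h1 : P.eval z = f.eval z - f.eval q := by
      rw [hP, Polynomial.eval_sub, Polynomial.eval_C]
    rw [← h1, hu]
    simp
  · intro z
    have h1 : f.derivative = P.derivative := by
      rw [hP, Polynomial.derivative_sub, Polynomial.derivative_C, sub_zero]
    unfold fd
    rw [h1, hu, Polynomial.derivative_mul, Polynomial.derivative_X_sub_C_pow]
    simp only [Polynomial.eval_add, Polynomial.eval_mul, Polynomial.eval_pow, Polynomial.eval_sub,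
      Polynomial.eval_X, Polynomial.eval_C, Nat.add_sub_cancel]
    push_cast
    ring

theorem LC1 : LC1_stmt := by
  intro f q a h hf ha hh heq h0
  obtain ⟨e, u, hu, h1, h2⟩ := LC1_factor f q hf
  set U : ℂ → ℂ := fun z => ((e : ℂ) + 1) * u.eval z + (z - q) * u.derivative.eval z with hU
  have hUc : Continuous U := by
    rw [hU]
    exact (continuous_const.mul u.continuous).add
      ((continuous_id.sub continuous_const).mul u.derivative.continuous)
  have hUq : U q = ((e : ℂ) + 1) * u.eval q := by
    rw [hU]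
    simp
  have hUq0 : U q ≠ 0 := by
    rw [hUq]
    exact mul_ne_zero (Nat.cast_add_one_ne_zero e) hu
  set H : ℂ → ℂ := fun z => dslope h (f.eval q) (f.eval z) with hH
  have hHc : ContinuousAt H q := by
    have c1 : ContinuousAt (dslope h (f.eval q)) (f.eval q) :=
      continuousAt_dslope_same.2 hh.differentiableAt
    exact ContinuousAt.comp (g := dslope h (f.eval q)) (f := fun z => f.eval z) c1
      f.continuous.continuousAt
  have hHq : H q = deriv h (f.eval q) := by
    rw [hH]
    simp only
    rw [dslope_same]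
  have huc : ContinuousAt (fun z => u.eval z) q := u.continuous.continuousAt
  have key : ∀ᶠ z in 𝓝[≠] q, U z * a z = (z - q) * (u.eval z * H z) := by
    filter_upwards [heq.filter_mono nhdsWithin_le_nhds, self_mem_nhdsWithin] with z hz hzq
    have hzq' : z - q ≠ 0 := sub_ne_zero.2 hzq
    have h3 : h (f.eval z) = (f.eval z - f.eval q) * H z := by
      have h4 := sub_smul_dslope h (f.eval q) (f.eval z)
      rw [h0, sub_zero, smul_eq_mul] at h4
      exact h4.symm
    rw [h3, h1 z, h2 z] at hz
    have h5 : (z - q) ^ e * (U z * a z) = (z - q) ^ e * ((z - q) * (u.eval z * H z)) := by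
      calc (z - q) ^ e * (U z * a z) = (z - q) ^ e * U z * a z := by ring
        _ = (z - q) ^ (e + 1) * u.eval z * H z := hz
        _ = (z - q) ^ e * ((z - q) * (u.eval z * H z)) := by ring
    exact mul_left_cancel₀ (pow_ne_zero e hzq') h5
  have hsub : Tendsto (fun z : ℂ => z - q) (𝓝[≠] q) (𝓝 0) := by
    have : Tendsto (fun z : ℂ => z - q) (𝓝 q) (𝓝 (q - q)) :=
      (continuous_id.sub continuous_const).tendsto q
    rw [sub_self] at this
    exact this.mono_left nhdsWithin_le_nhds
  have haq : a q = 0 := by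
    have t1 : Tendsto (fun z => U z * a z) (𝓝[≠] q) (𝓝 (U q * a q)) :=
      ((hUc.tendsto q).mul ha.continuousAt.tendsto).mono_left nhdsWithin_le_nhds
    have t2 : Tendsto (fun z => (z - q) * (u.eval z * H z)) (𝓝[≠] q) (𝓝 (0 * (u.eval q * H q))) :=
      hsub.mul ((huc.tendsto.mul hHc.tendsto).mono_left nhdsWithin_le_nhds)
    have t3 := tendsto_nhds_unique (t1.congr' key) t2
    rw [zero_mul] at t3
    exact (mul_eq_zero.1 t3).resolve_left hUq0
  refine ⟨haq, fun hda => ?_⟩
  have key2 : ∀ᶠ z in 𝓝[≠] q, U z * dslope a q z = u.eval z * H z := by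
    filter_upwards [key, self_mem_nhdsWithin] with z hz hzq
    have hzq' : z - q ≠ 0 := sub_ne_zero.2 hzq
    have h3 : a z = (z - q) * dslope a q z := by
      have h4 := sub_smul_dslope a q z
      rw [haq, sub_zero, smul_eq_mul] at h4
      exact h4.symm
    rw [h3] at hz
    refine mul_left_cancel₀ hzq' ?_
    calc (z - q) * (U z * dslope a q z) = U z * ((z - q) * dslope a q z) := by ring
      _ = (z - q) * (u.eval z * H z) := hz
  have t1 : Tendsto (fun z => U z * dslope a q z) (𝓝[≠] q) (𝓝 (U q * dslope a q q)) :=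
    ((hUc.tendsto q).mul (continuousAt_dslope_same.2 ha.differentiableAt).tendsto).mono_left
      nhdsWithin_le_nhds
  have t2 : Tendsto (fun z => u.eval z * H z) (𝓝[≠] q) (𝓝 (u.eval q * H q)) :=
    (huc.tendsto.mul hHc.tendsto).mono_left nhdsWithin_le_nhds
  have t3 := tendsto_nhds_unique (t1.congr' key2) t2
  rw [dslope_same, hda, mul_zero, hHq] at t3
  exact (mul_eq_zero.1 t3.symm).resolve_left hu

end PPS
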