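import Pool.Agent.helper36.PP.SpecA

/-! # Project pp (MP_70a088_an), module TL1 -/

set_option autoImplicit false

open Complex Metric Set Filter Topology MeasureTheory MPS

noncomputable section

namespace PPS

theorem TL1_pt (f : Polynomial ℂ) (q : ℂ → ℂ) (s : Multiset ℂ) :
    ENNReal.ofReal ‖(s.map fun y => q y / fd f y ^ 2).sum‖ ≤
      (s.map fun y => ENNReal.ofReal ‖q y‖ / ENNReal.ofReal (‖fd f y‖ ^ 2)).sum := by
  induction s using Multiset.induction_on with
  | empty => simp
  | cons a s ih =>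
    rw [Multiset.map_cons, Multiset.sum_cons, Multiset.map_cons, Multiset.sum_cons]
    refine (ENNReal.ofReal_le_ofReal (norm_add_le _ _)).trans ?_
    refine ENNReal.ofReal_add_le.trans ?_
    refine add_le_add ?_ ih
    rw [norm_div, norm_pow]
    exact ENNReal.ofReal_div_le (by positivity)

theorem TL1 (hMCV : MCV_stmt) : TL1_stmt := by
  intro f R q hf hR hq
  have hF : Measurable (fun y => ENNReal.ofReal ‖q y‖) := ENNReal.measurable_ofReal.comp hq.norm
  have h := hMCV f hf (fun y => ENNReal.ofReal ‖q y‖) (ball (0 : ℂ) R) hF measurableSet_ball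
  calc ∫⁻ z in ball (0 : ℂ) R, ENNReal.ofReal ‖TT f q z‖
      ≤ ∫⁻ z in ball (0 : ℂ) R,
          ((pre f z).map fun y => ENNReal.ofReal ‖q y‖ / ENNReal.ofReal (‖fd f y‖ ^ 2)).sum :=
        lintegral_mono (fun z => TL1_pt f q (pre f z))
    _ = ∫⁻ y in {y : ℂ | f.eval y ∈ ball (0 : ℂ) R}, ENNReal.ofReal ‖q y‖ := h
    _ ≤ ∫⁻ z in ball (0 : ℂ) R, ENNReal.ofReal ‖q z‖ := by
        apply lintegral_mono_set
        intro y hy
        rw [mem_setOf_eq, mem_ball_zero_iff] at hy
        rw [mem_ball_zero_iff]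
        exact hR y hy

end PPS
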